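import Pool.Agent.Lib.MP_eee7a8_ag.TB.Iface3
import Pool.Agent.Lib.MP_eee7a8_ag.TB.A.Tri

/-!
# TAGBR: module CONN
-/

namespace Pool.Agent.Lib.MP_eee7a8_ag.TB.C54

theorem cn1 {a b c u v : Cusp} (h : Cross a b u v) (h1 : ¬ Cross u v c a)
    (h2 : ¬ Cross u v c b) : u = c ∨ v = c := by
  simp only [cross_iff] at *
  grind (splits := 60)

theorem conn_star (hFirst : FirstStatement) {G : Subgroup SLZ} {ι : Type} [Finite ι]
    {T : Fam ι} (hT : T.IsTri G) {F : Cusp → Cusp → Prop}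
    (hF : SubE G T F) (hcl : ∀ a b c, F a b → T.E G a c → T.E G b c → F a c) (n : ℕ) :
    ∀ a b c : Cusp, {p : Cusp × Cusp | T.E G p.1 p.2 ∧ Cross p.1 p.2 a b}.ncard ≤ n →
      F c a → T.E G c b → F c b := by
  induction n using Nat.strong_induction_on with
  | _ n ih =>
    intro a b c hn hca hcb
    by_cases hab : a = b
    · subst hab; exact hca
    have hca' : T.E G c a := hF.sub _ _ hca
    rcases hT.star a b hab with e | ⟨u, v, au, av, uv, hc⟩
    · exact hcl c a b hca hcb e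
    · have n1 : ¬ Cross u v c a := hT.nocross _ _ _ _ uv hca'
      have n2 : ¬ Cross u v c b := hT.nocross _ _ _ _ uv hcb
      obtain ⟨f1, f2⟩ := hFirst G ι T hT a b u v au av uv hc
      rcases cn1 hc n1 n2 with e | e
      · subst e
        exact ih _ (lt_of_lt_of_le f1 hn) v b u le_rfl (hcl u a v hca uv av) hcb
      · subst e
        exact ih _ (lt_of_lt_of_le f2 hn) u b v le_rfl (hcl v a u hca uv.symm au) hcb

theorem conn_end (hFirst : FirstStatement) {G : Subgroup SLZ} {ι : Type} [Finite ι]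
    {T : Fam ι} (hT : T.IsTri G) {F : Cusp → Cusp → Prop}
    (hF : SubE G T F) (hcl : ∀ a b c, F a b → T.E G a c → T.E G b c → F a c) (n : ℕ) :
    ∀ x y : Cusp, {p : Cusp × Cusp | T.E G p.1 p.2 ∧ Cross p.1 p.2 x y}.ncard ≤ n →
      (∃ z, F x z) → ∃ z, F y z := by
  have hsymm : ∀ {a b}, F a b → F b a := fun {a b} h => hF.inv _ _ _ _ (SameArc.rev a b) h
  have hall : ∀ x z b, F x z → T.E G x b → F x b := fun x z b h h' =>
    conn_star hFirst hT hF hcl _ z b x le_rfl h h'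
  induction n using Nat.strong_induction_on with
  | _ n ih =>
    intro x y hn hx
    by_cases hxy : x = y
    · subst hxy; exact hx
    obtain ⟨z, hz⟩ := hx
    rcases hT.star x y hxy with e | ⟨u, v, xu, xv, uv, hc⟩
    · exact ⟨x, hsymm (hall x z y hz e)⟩
    · obtain ⟨-, f2⟩ := hFirst G ι T hT x y u v xu xv uv hc
      exact ih _ (lt_of_lt_of_le f2 hn) u y le_rfl ⟨x, hsymm (hall x z u hz xu)⟩

/-- CONN. -/
theorem conn (hFirst : FirstStatement) : ConnStatement := by
  intro G _ ι _ T hT F hF hex hcl a b hab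
  obtain ⟨a₀, b₀, h0⟩ := hex
  obtain ⟨z, hz⟩ := conn_end hFirst hT hF hcl _ a₀ a le_rfl ⟨b₀, h0⟩
  exact conn_star hFirst hT hF hcl _ z b a le_rfl hz hab

end Pool.Agent.Lib.MP_eee7a8_ag.TB.C54
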