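import Pool.Agent.Lib.MP_eee7a8_ag.TB.Iface2

/-!
# TAGBR: module TOOL
-/

namespace Pool.Agent.Lib.MP_eee7a8_ag.TB.C54

variable {G : Subgroup SLZ}

theorem sameArc_symm {a b c d : Cusp} (h : SameArc G a b c d) : SameArc G c d a b := by
  obtain ⟨g, hg, ⟨h1, h2⟩ | ⟨h1, h2⟩⟩ := h
  · refine ⟨g⁻¹, G.inv_mem hg, Or.inl ⟨?_, ?_⟩⟩
    · rw [← h1, inv_smul_smul]
    · rw [← h2, inv_smul_smul]
  · refine ⟨g⁻¹, G.inv_mem hg, Or.inr ⟨?_, ?_⟩⟩
    · rw [← h2, inv_smul_smul]
    · rw [← h1, inv_smul_smul]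

theorem sameArc_trans {a b c d e f : Cusp} (h : SameArc G a b c d) (h' : SameArc G c d e f) :
    SameArc G a b e f := by
  obtain ⟨g, hg, ⟨h1, h2⟩ | ⟨h1, h2⟩⟩ := h <;> obtain ⟨k, hk, ⟨h3, h4⟩ | ⟨h3, h4⟩⟩ := h'
  · exact ⟨k * g, G.mul_mem hk hg, Or.inl ⟨by rw [mul_smul, h1, h3], by rw [mul_smul, h2, h4]⟩⟩
  · exact ⟨k * g, G.mul_mem hk hg, Or.inr ⟨by rw [mul_smul, h1, h3], by rw [mul_smul, h2, h4]⟩⟩
  · exact ⟨k * g, G.mul_mem hk hg, Or.inr ⟨by rw [mul_smul, h1, h4], by rw [mul_smul, h2, h3]⟩⟩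
  · exact ⟨k * g, G.mul_mem hk hg, Or.inl ⟨by rw [mul_smul, h1, h4], by rw [mul_smul, h2, h3]⟩⟩

theorem ge_smul {e : Option (Cusp × Cusp)} {g : SLZ} (hg : g ∈ G) {a b : Cusp}
    (h : Ge G e a b) : Ge G e (g • a) (g • b) := by
  obtain ⟨p, hp, hs⟩ := h
  exact ⟨p, hp, sameArc_trans hs ⟨g, hg, Or.inl ⟨rfl, rfl⟩⟩⟩

theorem ge_symm {e : Option (Cusp × Cusp)} {a b : Cusp} (h : Ge G e a b) : Ge G e b a := by
  obtain ⟨p, hp, hs⟩ := h
  exact ⟨p, hp, sameArc_trans hs ⟨1, G.one_mem, Or.inr ⟨one_smul _ _, one_smul _ _⟩⟩⟩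

theorem sim_smul {e : Option (Cusp × Cusp)} {g : SLZ} (hg : g ∈ G) {a b : Cusp}
    (h : Sim G e a b) : Sim G e (g • a) (g • b) := by
  induction h with
  | rel x y h => exact Relation.EqvGen.rel _ _ (ge_smul hg h)
  | refl x => exact Relation.EqvGen.refl _
  | symm x y _ ih => exact Relation.EqvGen.symm _ _ ih
  | trans x y z _ _ ih1 ih2 => exact Relation.EqvGen.trans _ _ _ ih1 ih2

theorem sim_refl {e : Option (Cusp × Cusp)} (a : Cusp) : Sim G e a a := Relation.EqvGen.refl _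

theorem sim_symm {e : Option (Cusp × Cusp)} {a b : Cusp} (h : Sim G e a b) : Sim G e b a :=
  Relation.EqvGen.symm _ _ h

theorem sim_trans {e : Option (Cusp × Cusp)} {a b c : Cusp} (h : Sim G e a b)
    (h' : Sim G e b c) : Sim G e a c := Relation.EqvGen.trans _ _ _ h h'

theorem nc_smul {e : Option (Cusp × Cusp)} {g : SLZ} (hg : g ∈ G) {a b : Cusp}
    (h : NC G e a b) : NC G e (g • a) (g • b) := by
  intro c d hcd hc
  refine h _ _ (ge_smul (G.inv_mem hg) hcd) ?_
  rw [← cross_smul g, smul_inv_smul, smul_inv_smul]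
  exact hc

theorem nc_symm {e : Option (Cusp × Cusp)} {a b : Cusp} (h : NC G e a b) : NC G e b a :=
  fun c d hcd hc => h c d hcd (cross_comm_left.1 hc)

/-- The side of the cusp `x` with respect to the pair `rs`. -/
theorem cross_iff_side {p q r s : Cusp} :
    Cross p q r s ↔ (dt r p * dt s p) * (dt r q * dt s q) < 0 := by
  unfold Cross
  rw [dt_symm p r, dt_symm q r, dt_symm p s, dt_symm q s]
  rw [show (-dt r p * -dt r q) * (-dt s p * -dt s q) =
    (dt r p * dt s p) * (dt r q * dt s q) by ring]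

theorem pos_of_mul {x y z : ℤ} (h1 : 0 < x * y) (h2 : 0 < y * z) : 0 < x * z := by
  have h3 : 0 < (x * y) * (y * z) := mul_pos h1 h2
  have h4 : (x * y) * (y * z) = (y * y) * (x * z) := by ring
  rw [h4] at h3
  exact (pos_iff_pos_of_mul_pos h3).1 (mul_self_pos.2 (right_ne_zero_of_mul (ne_of_gt h1)))

/-- A chain of translates of `e` does not change its side with respect to a pair `rs` which does
not cross `e`, unless it passes through `r` or `s`. -/
theorem sim_side {e : Option (Cusp × Cusp)} {p q r s : Cusp} (h : Sim G e p q)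
    (hrs : NC G e r s) :
    (Sim G e p r ∨ Sim G e p s) ∨ 0 < (dt r p * dt s p) * (dt r q * dt s q) := by
  have hz : ∀ x : Cusp, dt r x * dt s x = 0 → x = r ∨ x = s := by
    intro x hx
    rcases mul_eq_zero.1 hx with h1 | h1
    · exact Or.inl (dt_eq_zero.1 h1).symm
    · exact Or.inr (dt_eq_zero.1 h1).symm
  induction h with
  | rel x y h =>
    have h1 : ¬ (dt r x * dt s x) * (dt r y * dt s y) < 0 := fun hc =>
      hrs x y h (cross_swap.1 (cross_iff_side.2 hc))
    have h2 : Sim G e x y := Relation.EqvGen.rel _ _ h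
    rcases eq_or_lt_of_le (not_lt.1 h1) with h3 | h3
    · left
      rcases mul_eq_zero.1 h3.symm with h4 | h4
      · rcases hz x h4 with rfl | rfl
        · exact Or.inl (sim_refl _)
        · exact Or.inr (sim_refl _)
      · rcases hz y h4 with rfl | rfl
        · exact Or.inl h2
        · exact Or.inr h2
    · exact Or.inr h3
  | refl x =>
    by_cases hx : dt r x * dt s x = 0
    · left
      rcases hz x hx with rfl | rfl
      · exact Or.inl (sim_refl _)
      · exact Or.inr (sim_refl _)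
    · exact Or.inr (mul_self_pos.2 hx)
  | symm x y h ih =>
    have h2 : Sim G e y x := Relation.EqvGen.symm _ _ h
    rcases ih with (h3 | h3) | h3
    · exact Or.inl (Or.inl (sim_trans h2 h3))
    · exact Or.inl (Or.inr (sim_trans h2 h3))
    · right
      rw [mul_comm]
      exact h3
  | trans x y z h1 h2 ih1 ih2 =>
    rcases ih1 with h3 | h3
    · exact Or.inl h3
    · rcases ih2 with (h4 | h4) | h4
      · exact Or.inl (Or.inl (sim_trans h1 h4))
      · exact Or.inl (Or.inr (sim_trans h1 h4))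
      · exact Or.inr (pos_of_mul h3 h4)

theorem sim_axis {e : Option (Cusp × Cusp)} {h : SLZ} (hn : NCL G e h)
    (h0 : ∀ a, side h a ≠ 0) {p q : Cusp} (hpq : Sim G e p q) : 0 < side h p * side h q := by
  induction hpq with
  | rel x y h => exact hn x y h
  | refl x => exact mul_self_pos.2 (h0 x)
  | symm x y _ ih => rw [mul_comm]; exact ih
  | trans x y z _ _ ih1 ih2 => exact pos_of_mul ih1 ih2

theorem nc_side {e : Option (Cusp × Cusp)} {a b c d : Cusp} (h : Cross a b c d)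
    (h1 : NC G e a b) (h2 : NC G e c d) : NC G e a c := by
  intro s t hst hc
  rcases h.side (cross_swap.1 hc) with h3 | h3
  · exact h1 s t hst (cross_swap.1 h3)
  · exact h2 s t hst (cross_swap.1 h3)

/-- Two translates of `e` do not cross. -/
theorem ge_nc {e : Option (Cusp × Cusp)} (he : Adm G e) {a b : Cusp} (hab : Ge G e a b) :
    NC G e a b := by
  intro c d hcd hc
  obtain ⟨p, rfl, hp⟩ := hab
  obtain ⟨q, hq, hq'⟩ := hcd
  obtain rfl : p = q := by simpa using hq
  have hs := (he p rfl).1.2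
  have key : ∀ g ∈ G, ∀ k ∈ G, ¬ Cross (g • p.1) (g • p.2) (k • p.1) (k • p.2) := by
    intro g hg k hk hc
    refine hs (g⁻¹ * k) (G.mul_mem (G.inv_mem hg) hk) ?_
    rw [← cross_smul g, mul_smul, mul_smul, smul_inv_smul, smul_inv_smul]
    exact hc
  obtain ⟨g, hg, ⟨rfl, rfl⟩ | ⟨rfl, rfl⟩⟩ := hp <;>
    obtain ⟨k, hk, ⟨rfl, rfl⟩ | ⟨rfl, rfl⟩⟩ := hq'
  · exact key g hg k hk hc
  · exact key g hg k hk (cross_comm_right.1 hc)
  · exact key g hg k hk (cross_comm_left.1 hc)
  · exact key g hg k hk (cross_comm_left.1 (cross_comm_right.1 hc))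

/-- TOOL. -/
theorem tool : ToolStatement := by
  intro G _ e he
  refine ⟨fun g hg a b h => sim_smul hg h, fun g hg a b h => nc_smul hg h,
    fun a b h => ge_nc he h, ?_, ?_, ?_⟩
  · intro p q r s hpq hrs hc
    rcases sim_side hpq hrs with h | h
    · exact h
    · exact absurd (cross_iff_side.1 hc) (not_lt.2 (le_of_lt h))
  · intro h hn p q hpq h0
    exact sim_axis hn h0 hpq
  · intro a b c d h h1 h2
    refine ⟨nc_side h h1 h2, ?_, ?_, ?_⟩
    · exact nc_side (cross_comm_left.1 (cross_comm_right.1 h)) (nc_symm h1) (nc_symm h2)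
    · exact nc_side (cross_comm_right.1 h) h1 (nc_symm h2)
    · exact nc_side (cross_comm_left.1 h) (nc_symm h1) h2

end Pool.Agent.Lib.MP_eee7a8_ag.TB.C54
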